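import Pool.Agent.H6.SEM4

set_option autoImplicit false

namespace Pool.Agent.Results.MP_be123d_co.TwoCycles

/-- The 2-regular graph `C_m ∪ C_n` (`m, n ≥ 3`, not `C_3 ∪ C_4`) of odd order has a strong
vertex-magic total labeling.  In each cycle, vertex `i` lies on the edges `i` and `i + 1`
(indices modulo the cycle length); `v` labels the vertices and `e` labels the edges. -/
theorem result (m n : ℕ) (hm : 3 ≤ m) (hn : 3 ≤ n) (hodd : Odd (m + n))
    (h34 : ¬ ((m = 3 ∧ n = 4) ∨ (m = 4 ∧ n = 3))) :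
    ∃ v e : Fin m ⊕ Fin n → ℕ, ∃ k : ℕ,
      Function.Injective (Sum.elim v e) ∧
      (∀ x, 1 ≤ Sum.elim v e x ∧ Sum.elim v e x ≤ (m + n) + (m + n)) ∧
      (∀ x, m + n < v x) ∧
      (∀ i j : Fin m, j.val = (i.val + 1) % m →
        v (Sum.inl i) + (e (Sum.inl i) + e (Sum.inl j)) = k) ∧
      (∀ i j : Fin n, j.val = (i.val + 1) % n →
        v (Sum.inr i) + (e (Sum.inr i) + e (Sum.inr j)) = k) := by
  obtain ⟨f, g, k, h1, h2, h3, h4, h5, h6⟩ := (Pool.Agent.H6.SEM.main m n hm hn h34).2 hodd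
  refine ⟨g, f, k, ?_, ?_, fun x => (h4 x).1, fun i j q => ?_, fun i j q => ?_⟩
  · refine Function.Injective.sumElim h2 h1 fun a b q => ?_
    have := h4 a
    have := h3 b
    omega
  · rintro (x | x)
    · have := h4 x
      simp only [Sum.elim_inl]
      omega
    · have := h3 x
      simp only [Sum.elim_inr]
      omega
  · have := h5 i j q
    omega
  · have := h6 i j q
    omega

end Pool.Agent.Results.MP_be123d_co.TwoCycles
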